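import Pool.Agent.Work.MP_df302a_co.MainY
import Pool.Agent.Work.MP_df302a_co.SDefs

/-!
# MP_df302a_co : a group whose convex polytope dimension is smaller than its geometric one

The definitions of `IsPolytope`, `Face`, `CombAut`, `cpd` are in
`Pool/Agent/Work/MP_df302a_co/Defs.lean`, those of `Aff`, `GeomSym`, `gcpd` are in
`Pool/Agent/Work/MP_df302a_co/SDefs.lean`.

Idea of the proof.  `M10`, of order 720, has no faithful real representation of dimension at most 8.
We give a polytope of dimension 8 on whose face lattice `M10` acts faithfully.  There is an explicit
`M10`-invariant simplicial fan of dimension 4 in the nine-dimensional space `R^10 / R(1, ..., 1)`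
over a contractible complex of dimension 3 without fixed point (481 vertices in a two-dimensional
complex with 3240 triangles, and one free orbit of vertices, each joined to an embedded sphere with
152 triangles).  A deformation theory for neighbourhood functions of polyhedral cones shows that the
function which is negative exactly on this fan becomes a linear functional after a piecewise linear
homeomorphism, and its gauge gives the polytope.
-/

set_option autoImplicit false

namespace Pool.Agent.Results.MP_df302a_co.CpdLtGcpd

/-- There is a group whose convex polytope dimension is smaller than its geometric convex polytope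
dimension. -/
theorem result : ∃ (Γ : Type) (_ : Group Γ),
    Pool.Agent.DF302A.cpd Γ < Pool.Agent.DF302A.Final.gcpd Γ := by
  obtain ⟨Γ, inst, h⟩ := Pool.Agent.DF302A.cpd_lt_gcpd_exists
  refine ⟨Γ, inst, ?_⟩
  rw [Pool.Agent.DF302A.Final.gcpd_eq]
  exact h

end Pool.Agent.Results.MP_df302a_co.CpdLtGcpd
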